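import Pool.Agent.Helper168.NottMain

namespace Pool.Agent.Results.MP_e06b60_al.NottinghamFive

open Pool.Agent.Helper168.NottDefs

/-- For `p = 5` there is an infinite pro-`p` group `G` which is not isomorphic to the Nottingham
group `J = Nott p` although `G/γ_{2p+1}(G)` and `J/γ_{2p+1}(J)` are isomorphic. -/
theorem result : ∃ (G : Type) (_ : Group G) (_ : TopologicalSpace G) (_ : IsTopologicalGroup G),
      IsProP G 5 ∧ Infinite G ∧
      Nonempty ((G ⧸ gamma G (2 * 5 + 1)) ≃ₜ* (Nott 5 ⧸ gamma (Nott 5) (2 * 5 + 1))) ∧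
      IsEmpty (G ≃ₜ* Nott 5) :=
  Pool.Agent.Helper168.NottDefs.main

end Pool.Agent.Results.MP_e06b60_al.NottinghamFive
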